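import Mathlib
import Pool.Agent.Lib.MP_05b917_co.Main

open MeasureTheory Set

namespace Pool.Agent.Results.MP_05b917_co.VolumePartition

/-- **Partition theorem for volumes.** For all `d ≥ 1` and `δ > 0` there is a number `r`,
depending only on `d` and `δ`, such that every finite family `K 0, …, K (n-1)` of convex sets in
`ℝ^d`, in which every `2 d` members (all members, if there are fewer than `2 d`) have
intersection of volume at least `1`, can be partitioned into `r` (possibly empty) classes each
having intersection of volume at least `1 - δ`. -/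
theorem result (d : ℕ) (hd : 1 ≤ d) (δ : ℝ) (hδ : 0 < δ) :
    ∃ r : ℕ, ∀ (n : ℕ) (K : Fin n → Set (EuclideanSpace ℝ (Fin d))),
      (∀ i, Convex ℝ (K i)) →
      (∀ s : Finset (Fin n), s.card = min (2 * d) n → 1 ≤ volume (⋂ i ∈ s, K i)) →
      ∃ c : Fin n → Fin r, ∀ j : Fin r,
        ENNReal.ofReal (1 - δ) ≤ volume (⋂ i ∈ {i | c i = j}, K i) := by
  rcases lt_or_ge δ 1 with hδ1 | hδ1
  · obtain ⟨r, hr⟩ := Pool.Agent.Lib.MP_05b917_co.main hd hδ hδ1
    refine ⟨r, fun n K hconv hvol => ?_⟩
    let e := MeasurableEquiv.toLp 2 (Fin d → ℝ)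
    have he : MeasurePreserving e volume volume :=
      (EuclideanSpace.volume_preserving_symm_measurableEquiv_toLp (Fin d)).symm
    have hpre : ∀ p : Fin n → Prop, volume (⋂ i, ⋂ (_ : p i), e ⁻¹' (K i)) =
        volume (⋂ i, ⋂ (_ : p i), K i) := by
      intro p
      rw [← he.measure_preimage_equiv]
      simp only [preimage_iInter]
    have hconv' : ∀ i, Convex ℝ (e ⁻¹' (K i)) := by
      intro i
      exact (hconv i).linear_preimage (WithLp.linearEquiv 2 ℝ (Fin d → ℝ)).symm.toLinearMap
    have hvol' : ∀ s : Finset (Fin n), s.card ≤ 2 * d →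
        1 ≤ volume (⋂ i ∈ s, e ⁻¹' (K i)) := by
      intro s hs
      rw [hpre]
      have hsn : s.card ≤ n := by simpa using Finset.card_le_univ s
      obtain ⟨t, hst, -, ht⟩ := Finset.exists_subsuperset_card_eq (Finset.subset_univ s)
        (le_min hs hsn) (by simp)
      refine (hvol t ht).trans (measure_mono ?_)
      exact biInter_subset_biInter_left hst
    obtain ⟨c, hc⟩ := hr n (fun i => e ⁻¹' (K i)) hconv' hvol'
    refine ⟨c, fun j => ?_⟩
    have h1 := hc j
    simp only [Set.mem_ofPred_eq] at h1 ⊢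
    rwa [hpre] at h1
  · refine ⟨1, fun n K _ _ => ⟨fun _ => 0, fun j => ?_⟩⟩
    rw [ENNReal.ofReal_of_nonpos (by linarith)]
    exact zero_le

end Pool.Agent.Results.MP_05b917_co.VolumePartition
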